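import Pool.Agent.V11187.VisualHull
import Pool.Agent.Helper58.VH.Main

/-!
# The visual hull of `n` strictly separated closed (or open) bodies in `ℝⁿ` has `n` components

`IsBody` is bounded, convex, with non-empty interior, `StrictlySeparated` is separation by a
hyperplane with the two sets in the two different open half-spaces, `visualHull` is the set of
points all of whose lines meet the set, and `numComponents` is the number of connected
components (all from `Pool.Agent.V11187.VisualHull`).
-/

open Set Pool.Agent.V11187.VisualHull

namespace Pool.Agent.Results.MP_1d6f1e_gt.ClosedOrOpenBodies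

/-- For every `n ≥ 1`: if `S₁, …, Sₙ ⊆ ℝⁿ` are strictly separated bodies which are all closed,
or all open, then the visual hull of `S₁ ∪ … ∪ Sₙ` has exactly `n` connected components. -/
theorem result (n : ℕ) (hn : 1 ≤ n) (S : Fin n → Set (EuclideanSpace ℝ (Fin n)))
    (hbody : ∀ i, IsBody (S i)) (hsep : StrictlySeparated S)
    (hS : (∀ i, IsClosed (S i)) ∨ (∀ i, IsOpen (S i))) :
    numComponents (visualHull (⋃ i, S i)) = n := by
  have : Nonempty (Fin n) := ⟨⟨0, hn⟩⟩
  have h := Pool.Agent.Helper58.VH.numComponents_eq (ι := Fin n)
    (E := EuclideanSpace ℝ (Fin n)) (by simp) S hbody hsep hS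
  simpa using h

end Pool.Agent.Results.MP_1d6f1e_gt.ClosedOrOpenBodies
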